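import Pool.Agent.W8.ST.Stm

set_option autoImplicit false

open scoped ContDiff
open MeasureTheory intervalIntegral Set

namespace Pool.Agent.W695.ST

open Pool.Agent.W8.ST

lemma vec_eq (x : V 4) : x = ![x 0, x 1, x 2, x 3] := by
  funext i; fin_cases i <;> rfl

lemma pathD0 (t a b c : ℝ) :
    HasDerivAt (fun s : ℝ => (![s, a, b, c] : V 4)) (Pi.single 0 1) t := by
  rw [hasDerivAt_pi]
  intro i
  fin_cases i
  · simpa using hasDerivAt_id' t
  · simpa using hasDerivAt_const t a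
  · simpa using hasDerivAt_const t b
  · simpa using hasDerivAt_const t c

lemma pathD1 (t a b c : ℝ) :
    HasDerivAt (fun s : ℝ => (![t, s, b, c] : V 4)) (Pi.single 1 1) a := by
  rw [hasDerivAt_pi]
  intro i
  fin_cases i
  · simpa using hasDerivAt_const a t
  · simpa using hasDerivAt_id' a
  · simpa using hasDerivAt_const a b
  · simpa using hasDerivAt_const a c

lemma pathD2 (t a b c : ℝ) :
    HasDerivAt (fun s : ℝ => (![t, a, s, c] : V 4)) (Pi.single 2 1) b := by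
  rw [hasDerivAt_pi]
  intro i
  fin_cases i
  · simpa using hasDerivAt_const b t
  · simpa using hasDerivAt_const b a
  · simpa using hasDerivAt_id' b
  · simpa using hasDerivAt_const b c

lemma pathD3 (t a b c : ℝ) :
    HasDerivAt (fun s : ℝ => (![t, a, b, s] : V 4)) (Pi.single 3 1) c := by
  rw [hasDerivAt_pi]
  intro i
  fin_cases i
  · simpa using hasDerivAt_const c t
  · simpa using hasDerivAt_const c a
  · simpa using hasDerivAt_const c b
  · simpa using hasDerivAt_id' c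

lemma hd0 (w : V 4 → ℝ) (hw : Differentiable ℝ w) (t a b c : ℝ) :
    HasDerivAt (fun s => w ![s, a, b, c]) (pd 0 w ![t, a, b, c]) t :=
  (hw _).hasFDerivAt.comp_hasDerivAt t (pathD0 t a b c)

lemma hd1 (w : V 4 → ℝ) (hw : Differentiable ℝ w) (t a b c : ℝ) :
    HasDerivAt (fun s => w ![t, s, b, c]) (pd 1 w ![t, a, b, c]) a :=
  (hw _).hasFDerivAt.comp_hasDerivAt a (pathD1 t a b c)

lemma hd2 (w : V 4 → ℝ) (hw : Differentiable ℝ w) (t a b c : ℝ) :
    HasDerivAt (fun s => w ![t, a, s, c]) (pd 2 w ![t, a, b, c]) b :=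
  (hw _).hasFDerivAt.comp_hasDerivAt b (pathD2 t a b c)

lemma hd3 (w : V 4 → ℝ) (hw : Differentiable ℝ w) (t a b c : ℝ) :
    HasDerivAt (fun s => w ![t, a, b, s]) (pd 3 w ![t, a, b, c]) c :=
  (hw _).hasFDerivAt.comp_hasDerivAt c (pathD3 t a b c)

lemma mem_strip (t a b c : ℝ) : (![t, a, b, c] : V 4) ∈ strip 3 ↔ t ∈ Icc (-1 : ℝ) 1 := by
  simp [strip, abs_le]

lemma cont4 {X : Type*} [TopologicalSpace X] (f1 f2 f3 f4 : X → ℝ) (h1 : Continuous f1)
    (h2 : Continuous f2) (h3 : Continuous f3) (h4 : Continuous f4) :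
    Continuous (fun x => (![f1 x, f2 x, f3 x, f4 x] : V 4)) := by
  refine continuous_pi fun i => ?_
  fin_cases i
  · simpa using h1
  · simpa using h2
  · simpa using h3
  · simpa using h4

lemma cdiff1 (w : V 4 → ℝ) (hw : ContDiff ℝ ∞ w) (t : ℝ) :
    ContDiff ℝ 1 (fun s : ℝ => w ![t, s, 0, 0]) := by
  refine (hw.of_le (by exact_mod_cast le_top)).comp ?_
  rw [contDiff_pi]
  intro i
  fin_cases i
  · simpa using contDiff_const
  · have h : ContDiff ℝ 1 (fun x : ℝ => x) := contDiff_id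
    simpa using h
  · simpa using contDiff_const
  · simpa using contDiff_const

lemma cdiff0 (w : V 4 → ℝ) (hw : ContDiff ℝ ∞ w) (a : ℝ) :
    ContDiff ℝ 1 (fun s : ℝ => w ![s, a, 0, 0]) := by
  refine (hw.of_le (by exact_mod_cast le_top)).comp ?_
  rw [contDiff_pi]
  intro i
  fin_cases i
  · have h : ContDiff ℝ 1 (fun x : ℝ => x) := contDiff_id
    simpa using h
  · simpa using contDiff_const
  · simpa using contDiff_const
  · simpa using contDiff_const

/-- a function with zero derivatives in the last two directions on the strip -/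
lemma indep (u : V 4 → ℝ) (hu : Differentiable ℝ u)
    (h : ∀ x ∈ strip 3, pd 2 u x = 0 ∧ pd 3 u x = 0) (t a b c : ℝ) (ht : t ∈ Icc (-1 : ℝ) 1) :
    u ![t, a, b, c] = u ![t, a, 0, 0] := by
  have e1 : u ![t, a, b, c] = u ![t, a, 0, c] := by
    refine is_const_of_deriv_eq_zero (f := fun s => u ![t, a, s, c])
      (fun s => (hd2 u hu t a s c).differentiableAt) (fun s => ?_) b 0
    rw [(hd2 u hu t a s c).deriv]
    exact (h _ ((mem_strip t a s c).2 ht)).1
  have e2 : u ![t, a, 0, c] = u ![t, a, 0, 0] := by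
    refine is_const_of_deriv_eq_zero (f := fun s => u ![t, a, 0, s])
      (fun s => (hd3 u hu t a 0 s).differentiableAt) (fun s => ?_) c 0
    rw [(hd3 u hu t a 0 s).deriv]
    exact (h _ ((mem_strip t a 0 s).2 ht)).2
  rw [e1, e2]

lemma indep_pd1 (w : V 4 → ℝ) (hw : Differentiable ℝ w)
    (h : ∀ t a b c : ℝ, t ∈ Icc (-1 : ℝ) 1 → w ![t, a, b, c] = w ![t, a, 0, 0])
    (t a b c : ℝ) (ht : t ∈ Icc (-1 : ℝ) 1) :
    pd 1 w ![t, a, b, c] = pd 1 w ![t, a, 0, 0] := by
  have h1 := hd1 w hw t a b c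
  have h2 := hd1 w hw t a 0 0
  have e : (fun s => w ![t, s, b, c]) = fun s => w ![t, s, 0, 0] := by
    funext s; exact h t s b c ht
  rw [e] at h1
  exact h1.unique h2

lemma indep_pd0 (w : V 4 → ℝ) (hw : Differentiable ℝ w)
    (h : ∀ t a b c : ℝ, t ∈ Icc (-1 : ℝ) 1 → w ![t, a, b, c] = w ![t, a, 0, 0])
    (t a b c : ℝ) (ht : t ∈ Icc (-1 : ℝ) 1) :
    pd 0 w ![t, a, b, c] = pd 0 w ![t, a, 0, 0] := by
  have h1 := (hd0 w hw t a b c).hasDerivWithinAt (s := Icc (-1 : ℝ) 1)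
  have h2 := (hd0 w hw t a 0 0).hasDerivWithinAt (s := Icc (-1 : ℝ) 1)
  have h3 : HasDerivWithinAt (fun s => w ![s, a, 0, 0]) (pd 0 w ![t, a, b, c])
      (Icc (-1 : ℝ) 1) t :=
    h1.congr (fun s hs => (h s a b c hs).symm) (h t a b c ht).symm
  exact (uniqueDiffOn_Icc (by norm_num : (-1 : ℝ) < 1) t ht).eq_deriv _ h3 h2

lemma indep_pd2 (w : V 4 → ℝ) (hw : Differentiable ℝ w)
    (h : ∀ t a b c : ℝ, t ∈ Icc (-1 : ℝ) 1 → w ![t, a, b, c] = w ![t, a, 0, 0])
    (t a b c : ℝ) (ht : t ∈ Icc (-1 : ℝ) 1) :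
    pd 2 w ![t, a, b, c] = 0 := by
  have h1 := hd2 w hw t a b c
  have e : (fun s => w ![t, a, s, c]) = fun _ => w ![t, a, 0, 0] := by
    funext s; exact h t a s c ht
  rw [e] at h1
  exact h1.unique (hasDerivAt_const b _)

lemma indep_pd3 (w : V 4 → ℝ) (hw : Differentiable ℝ w)
    (h : ∀ t a b c : ℝ, t ∈ Icc (-1 : ℝ) 1 → w ![t, a, b, c] = w ![t, a, 0, 0])
    (t a b c : ℝ) (ht : t ∈ Icc (-1 : ℝ) 1) :
    pd 3 w ![t, a, b, c] = 0 := by
  have h1 := hd3 w hw t a b c
  have e : (fun s => w ![t, a, b, s]) = fun _ => w ![t, a, 0, 0] := by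
    funext s; exact h t a b s ht
  rw [e] at h1
  exact h1.unique (hasDerivAt_const c _)

lemma q_pos (t : ℝ) : 0 < q t := Real.exp_pos _

lemma q_cont : Continuous q := by unfold q; fun_prop

lemma qi_cont : Continuous (fun t => (q t)⁻¹) := q_cont.inv₀ (fun t => (q_pos t).ne')

/-- the two dimensional core -/
lemma core (hWir : Wir) (hPic : Pic) (lam : ℝ) (ψ : ℝ → ℝ) (hψ : IsGround lam ψ)
    (U W W0 W1 : ℝ → ℝ → ℝ)
    (hWc : Continuous (fun p : ℝ × ℝ => W p.1 p.2))
    (hW0c : Continuous (fun p : ℝ × ℝ => W0 p.1 p.2))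
    (hW1c : Continuous (fun p : ℝ × ℝ => W1 p.1 p.2))
    (hC0 : ∀ a, ContDiff ℝ 1 (fun t => W t a)) (hC1 : ∀ t, ContDiff ℝ 1 (fun a => W t a))
    (hU : ∀ t a, HasDerivAt (fun s => U t s) (W t a) a)
    (hD0 : ∀ t a, HasDerivAt (fun s => W s a) (W0 t a) t)
    (hD1 : ∀ t a, HasDerivAt (fun s => W t s) (W1 t a) a)
    (hper : ∀ t ∈ Icc (-1 : ℝ) 1, ∀ a, U t (a + Real.pi) = U t a)
    (hE : ∫ t in (-1 : ℝ)..1, ∫ a in (0 : ℝ)..(2 * Real.pi),
      ((W0 t a) ^ 2 + ((q t)⁻¹) ^ 2 * (W1 t a) ^ 2 - lam * q t * (W t a) ^ 2) = 0) :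
    ∀ t ∈ Icc (-1 : ℝ) 1, ∀ a, W t a = 0 := by
  have hpi := Real.pi_pos
  -- periodicity of W
  have hperW : ∀ t ∈ Icc (-1 : ℝ) 1, ∀ a, W t (a + Real.pi) = W t a := by
    intro t ht a
    have h1 : HasDerivAt (fun s => U t (s + Real.pi)) (W t (a + Real.pi)) a := by
      have := HasDerivAt.comp a (hU t (a + Real.pi)) ((hasDerivAt_id' a).add_const Real.pi)
      simpa [Function.comp_def] using this
    have e : (fun s => U t (s + Real.pi)) = fun s => U t s := by
      funext s; exact hper t ht s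
    rw [e] at h1
    exact h1.unique (hU t a)
  have hperW1 : ∀ t ∈ Icc (-1 : ℝ) 1, ∀ a, W1 t (a + Real.pi) = W1 t a := by
    intro t ht a
    have h1 : HasDerivAt (fun s => W t (s + Real.pi)) (W1 t (a + Real.pi)) a := by
      have := HasDerivAt.comp a (hD1 t (a + Real.pi)) ((hasDerivAt_id' a).add_const Real.pi)
      simpa [Function.comp_def] using this
    have e : (fun s => W t (s + Real.pi)) = fun s => W t s := by
      funext s; exact hperW t ht s
    rw [e] at h1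
    exact h1.unique (hD1 t a)
  have cW : ∀ t, Continuous (fun a => W t a) := fun t => hWc.comp (continuous_const.prodMk continuous_id)
  have cW1 : ∀ t, Continuous (fun a => W1 t a) :=
    fun t => hW1c.comp (continuous_const.prodMk continuous_id)
  have cW0 : ∀ t, Continuous (fun a => W0 t a) :=
    fun t => hW0c.comp (continuous_const.prodMk continuous_id)
  have cW2 : ∀ t, Continuous (fun a => (W t a) ^ 2) := fun t => (cW t).pow 2
  have cW12 : ∀ t, Continuous (fun a => (W1 t a) ^ 2) := fun t => (cW1 t).pow 2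
  have cW02 : ∀ t, Continuous (fun a => (W0 t a) ^ 2) := fun t => (cW0 t).pow 2
  -- Wirtinger
  have hwir : ∀ t ∈ Icc (-1 : ℝ) 1, 4 * ∫ a in (0 : ℝ)..(2 * Real.pi), (W t a) ^ 2 ≤
      ∫ a in (0 : ℝ)..(2 * Real.pi), (W1 t a) ^ 2 := by
    intro t ht
    have hz : ∫ s in (0 : ℝ)..Real.pi, W t s = 0 := by
      rw [integral_eq_sub_of_hasDerivAt (fun s _ => hU t s) ((cW t).intervalIntegrable _ _)]
      have := hper t ht 0
      rw [zero_add] at this
      rw [this, sub_self]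
    have h0 : W t Real.pi = W t 0 := by
      have := hperW t ht 0
      rwa [zero_add] at this
    have h := hWir Real.pi (fun s => W t s) hpi (hC1 t) h0 hz
    have e1 : (2 * Real.pi / Real.pi) ^ 2 = 4 := by
      rw [mul_div_assoc, div_self hpi.ne']; norm_num
    have e2 : (fun s => (deriv (fun s => W t s) s) ^ 2) = fun s => (W1 t s) ^ 2 := by
      funext s; rw [(hD1 t s).deriv]
    rw [e1, e2] at h
    have p1 : Function.Periodic (fun s => (W t s) ^ 2) Real.pi := by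
      intro s; simp only [hperW t ht s]
    have p2 : Function.Periodic (fun s => (W1 t s) ^ 2) Real.pi := by
      intro s; simp only [hperW1 t ht s]
    have s1 : ∫ a in (0 : ℝ)..(2 * Real.pi), (W t a) ^ 2 =
        2 * ∫ a in (0 : ℝ)..Real.pi, (W t a) ^ 2 := by
      rw [← integral_add_adjacent_intervals (b := Real.pi)
        ((cW2 t).intervalIntegrable _ _) ((cW2 t).intervalIntegrable _ _)]
      have := p1.intervalIntegral_add_eq Real.pi 0
      rw [zero_add, ← two_mul] at this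
      rw [this]; ring
    have s2 : ∫ a in (0 : ℝ)..(2 * Real.pi), (W1 t a) ^ 2 =
        2 * ∫ a in (0 : ℝ)..Real.pi, (W1 t a) ^ 2 := by
      rw [← integral_add_adjacent_intervals (b := Real.pi)
        ((cW12 t).intervalIntegrable _ _) ((cW12 t).intervalIntegrable _ _)]
      have := p2.intervalIntegral_add_eq Real.pi 0
      rw [zero_add, ← two_mul] at this
      rw [this]; ring
    rw [s1, s2]
    linarith
  -- Picone
  have hA : 0 ≤ ∫ t in (-1 : ℝ)..1, ∫ a in (0 : ℝ)..(2 * Real.pi),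
      ((W0 t a) ^ 2 + (((q t)⁻¹) ^ 2 - lam * q t) * (W t a) ^ 2) := by
    have hc : Continuous (Function.uncurry fun t a : ℝ =>
        ((W0 t a) ^ 2 + (((q t)⁻¹) ^ 2 - lam * q t) * (W t a) ^ 2)) := by
      have c1 : Continuous (fun p : ℝ × ℝ => (q p.1)⁻¹) := qi_cont.comp continuous_fst
      have c2 : Continuous (fun p : ℝ × ℝ => q p.1) := q_cont.comp continuous_fst
      exact (hW0c.pow 2).add (((c1.pow 2).sub (continuous_const.mul c2)).mul (hWc.pow 2))
    rw [intervalIntegral_intervalIntegral_swap]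
    · apply intervalIntegral.integral_nonneg (by linarith)
      intro a _
      have h := hPic (fun t => ((q t)⁻¹) ^ 2 - lam * q t) ψ (fun t => W t a)
        ((qi_cont.pow 2).sub (continuous_const.mul q_cont))
        (by exact_mod_cast (contDiff_infty.1 hψ.1 2)) (hC0 a) hψ.2.1 hψ.2.2.1 hψ.2.2.2.1
        hψ.2.2.2.2.ge
      have e : (fun t => (deriv (fun t => W t a) t) ^ 2 +
          (((q t)⁻¹) ^ 2 - lam * q t) * (W t a) ^ 2) =
          fun t => ((W0 t a) ^ 2 + (((q t)⁻¹) ^ 2 - lam * q t) * (W t a) ^ 2) := by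
        funext t; rw [(hD0 t a).deriv]
      rw [e] at h
      exact h
    · refine (hc.continuousOn.integrableOn_compact
        ((isCompact_uIcc (a := (-1 : ℝ)) (b := 1)).prod
          (isCompact_uIcc (a := (0 : ℝ)) (b := 2 * Real.pi)))).mono_set ?_
      exact prod_mono uIoc_subset_uIcc uIoc_subset_uIcc
  -- continuity of parametric integrals
  have cI : ∀ H : ℝ → ℝ → ℝ, Continuous (Function.uncurry H) →
      Continuous (fun t => ∫ a in (0 : ℝ)..(2 * Real.pi), H t a) := by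
    intro H hH
    exact continuous_parametric_intervalIntegral_of_continuous hH continuous_const
  have cK : Continuous (fun t => ∫ a in (0 : ℝ)..(2 * Real.pi), (W t a) ^ 2) :=
    cI (fun t a => (W t a) ^ 2) (hWc.pow 2)
  have hK0 : ∀ t, 0 ≤ ∫ a in (0 : ℝ)..(2 * Real.pi), (W t a) ^ 2 := fun t =>
    intervalIntegral.integral_nonneg (by linarith) (fun a _ => sq_nonneg _)
  -- main inequality
  have hmain : ∫ t in (-1 : ℝ)..1, 3 * ((q t)⁻¹) ^ 2 * ∫ a in (0 : ℝ)..(2 * Real.pi), (W t a) ^ 2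
      ≤ 0 := by
    have c1 : Continuous (fun p : ℝ × ℝ => (q p.1)⁻¹) := qi_cont.comp continuous_fst
    have c2 : Continuous (fun p : ℝ × ℝ => q p.1) := q_cont.comp continuous_fst
    have hcA : Continuous (fun t => ∫ a in (0 : ℝ)..(2 * Real.pi),
        ((W0 t a) ^ 2 + (((q t)⁻¹) ^ 2 - lam * q t) * (W t a) ^ 2)) :=
      cI (fun t a => ((W0 t a) ^ 2 + (((q t)⁻¹) ^ 2 - lam * q t) * (W t a) ^ 2))
        ((hW0c.pow 2).add (((c1.pow 2).sub (continuous_const.mul c2)).mul (hWc.pow 2)))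
    have hcG : Continuous (fun t => ∫ a in (0 : ℝ)..(2 * Real.pi),
        ((W0 t a) ^ 2 + ((q t)⁻¹) ^ 2 * (W1 t a) ^ 2 - lam * q t * (W t a) ^ 2)) :=
      cI (fun t a => ((W0 t a) ^ 2 + ((q t)⁻¹) ^ 2 * (W1 t a) ^ 2 - lam * q t * (W t a) ^ 2))
        (((hW0c.pow 2).add ((c1.pow 2).mul (hW1c.pow 2))).sub
          ((continuous_const.mul c2).mul (hWc.pow 2)))
    have hcB : Continuous (fun t => 3 * ((q t)⁻¹) ^ 2 *
        ∫ a in (0 : ℝ)..(2 * Real.pi), (W t a) ^ 2) :=
      (continuous_const.mul (qi_cont.pow 2)).mul cK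
    have key : ∫ t in (-1 : ℝ)..1, ((∫ a in (0 : ℝ)..(2 * Real.pi),
        ((W0 t a) ^ 2 + (((q t)⁻¹) ^ 2 - lam * q t) * (W t a) ^ 2)) +
        3 * ((q t)⁻¹) ^ 2 * ∫ a in (0 : ℝ)..(2 * Real.pi), (W t a) ^ 2) ≤
        ∫ t in (-1 : ℝ)..1, ∫ a in (0 : ℝ)..(2 * Real.pi),
          ((W0 t a) ^ 2 + ((q t)⁻¹) ^ 2 * (W1 t a) ^ 2 - lam * q t * (W t a) ^ 2) := by
      apply intervalIntegral.integral_mono_on (by norm_num)
        ((hcA.add hcB).intervalIntegrable _ _) (hcG.intervalIntegrable _ _)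
      intro t ht
      simp only [Pi.add_apply]
      have hw := hwir t ht
      have i0 : IntervalIntegrable (fun a => (W0 t a) ^ 2) volume 0 (2 * Real.pi) :=
        (cW02 t).intervalIntegrable _ _
      have i1 : IntervalIntegrable (fun a => (W1 t a) ^ 2) volume 0 (2 * Real.pi) :=
        (cW12 t).intervalIntegrable _ _
      have i2 : IntervalIntegrable (fun a => (W t a) ^ 2) volume 0 (2 * Real.pi) :=
        (cW2 t).intervalIntegrable _ _
      rw [intervalIntegral.integral_add i0 (i2.const_mul _),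
        intervalIntegral.integral_sub (i0.add (i1.const_mul _)) (i2.const_mul _),
        intervalIntegral.integral_add i0 (i1.const_mul _),
        intervalIntegral.integral_const_mul, intervalIntegral.integral_const_mul,
        intervalIntegral.integral_const_mul]
      have hq : 0 ≤ ((q t)⁻¹) ^ 2 := sq_nonneg _
      nlinarith [mul_le_mul_of_nonneg_left hw hq]
    rw [intervalIntegral.integral_add (hcA.intervalIntegrable _ _) (hcB.intervalIntegrable _ _),
      hE] at key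
    linarith
  -- conclusion
  have hKz : ∀ t ∈ Icc (-1 : ℝ) 1, ∫ a in (0 : ℝ)..(2 * Real.pi), (W t a) ^ 2 = 0 := by
    intro t ht
    by_contra hne
    have hpos : 0 < ∫ a in (0 : ℝ)..(2 * Real.pi), (W t a) ^ 2 :=
      lt_of_le_of_ne (hK0 t) (Ne.symm hne)
    have hcB : Continuous (fun t => 3 * ((q t)⁻¹) ^ 2 *
        ∫ a in (0 : ℝ)..(2 * Real.pi), (W t a) ^ 2) :=
      (continuous_const.mul (qi_cont.pow 2)).mul cK
    have : 0 < ∫ t in (-1 : ℝ)..1, 3 * ((q t)⁻¹) ^ 2 *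
        ∫ a in (0 : ℝ)..(2 * Real.pi), (W t a) ^ 2 := by
      apply intervalIntegral.integral_pos (by norm_num) hcB.continuousOn
      · intro s _
        have := hK0 s
        positivity
      · refine ⟨t, ht, ?_⟩
        have := q_pos t
        positivity
    linarith
  have hWz : ∀ t ∈ Icc (-1 : ℝ) 1, ∀ a ∈ Icc (0 : ℝ) (2 * Real.pi), W t a = 0 := by
    intro t ht a ha
    by_contra hne
    have : 0 < ∫ a in (0 : ℝ)..(2 * Real.pi), (W t a) ^ 2 := by
      apply intervalIntegral.integral_pos (by linarith) (cW2 t).continuousOn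
      · intro s _
        exact sq_nonneg _
      · exact ⟨a, ha, (sq_pos_iff).2 hne⟩
    linarith [hKz t ht]
  intro t ht a
  have p : Function.Periodic (fun s => W t s) Real.pi := fun s => hperW t ht s
  obtain ⟨y, hy, hay⟩ := p.exists_mem_Ico₀ hpi a
  rw [hay]
  exact hWz t ht y ⟨hy.1, by linarith [hy.2]⟩

theorem NC_proof : NC := by
  intro hCommD hOpD hEne hWir hPic lam ψ u hψ hu hinv hb
  have huD : Differentiable ℝ u := hu.1.differentiable (by simp)
  have hv : Sol lam 0 (pd 1 u) := (hOpD hCommD).1 lam 0 u hu 0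
  have hvD : Differentiable ℝ (pd 1 u) := hv.1.differentiable (by simp)
  have hv' := (hCommD (pd 1 u) hv.1).1
  have hind : ∀ t a b c : ℝ, t ∈ Icc (-1 : ℝ) 1 → u ![t, a, b, c] = u ![t, a, 0, 0] :=
    fun t a b c ht => indep u huD hb t a b c ht
  have hindv : ∀ t a b c : ℝ, t ∈ Icc (-1 : ℝ) 1 →
      pd 1 u ![t, a, b, c] = pd 1 u ![t, a, 0, 0] :=
    fun t a b c ht => indep_pd1 u huD hind t a b c ht
  have hE := hEne lam (pd 1 u) hv
  have hbox : box (fun x => (pd 0 (pd 1 u) x) ^ 2 + ((q (x 0))⁻¹) ^ 2 * (pd 1 (pd 1 u) x) ^ 2 +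
      q (x 0) ^ 2 * ((pd 2 (pd 1 u) x) ^ 2 + (pd 3 (pd 1 u) x) ^ 2) -
      lam * q (x 0) * (pd 1 u x) ^ 2) =
      (2 * Real.pi) * (2 * Real.pi) * ∫ t in (-1 : ℝ)..1, ∫ a in (0 : ℝ)..(2 * Real.pi),
      ((pd 0 (pd 1 u) ![t, a, 0, 0]) ^ 2 + ((q t)⁻¹) ^ 2 * (pd 1 (pd 1 u) ![t, a, 0, 0]) ^ 2 -
        lam * q t * (pd 1 u ![t, a, 0, 0]) ^ 2) := by
    unfold box
    rw [← intervalIntegral.integral_const_mul]
    apply intervalIntegral.integral_congr
    intro t ht
    rw [uIcc_of_le (by norm_num)] at ht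
    simp only
    rw [← intervalIntegral.integral_const_mul]
    apply intervalIntegral.integral_congr
    intro a _
    simp only
    have e : ∀ b c : ℝ, (pd 0 (pd 1 u) ![t, a, b, c]) ^ 2 +
        ((q ((![t, a, b, c] : V 4) 0))⁻¹) ^ 2 * (pd 1 (pd 1 u) ![t, a, b, c]) ^ 2 +
        q ((![t, a, b, c] : V 4) 0) ^ 2 * ((pd 2 (pd 1 u) ![t, a, b, c]) ^ 2 +
          (pd 3 (pd 1 u) ![t, a, b, c]) ^ 2) -
        lam * q ((![t, a, b, c] : V 4) 0) * (pd 1 u ![t, a, b, c]) ^ 2 =
        ((pd 0 (pd 1 u) ![t, a, 0, 0]) ^ 2 + ((q t)⁻¹) ^ 2 * (pd 1 (pd 1 u) ![t, a, 0, 0]) ^ 2 -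
        lam * q t * (pd 1 u ![t, a, 0, 0]) ^ 2) := by
      intro b c
      rw [indep_pd0 _ hvD hindv t a b c ht, indep_pd1 _ hvD hindv t a b c ht,
        indep_pd2 _ hvD hindv t a b c ht, indep_pd3 _ hvD hindv t a b c ht, hindv t a b c ht]
      simp
    simp_rw [e]
    rw [intervalIntegral.integral_const, intervalIntegral.integral_const]
    simp only [smul_eq_mul, sub_zero]
    ring
  rw [hbox] at hE
  have hpi := Real.pi_pos
  have hE' : ∫ t in (-1 : ℝ)..1, ∫ a in (0 : ℝ)..(2 * Real.pi),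
      ((pd 0 (pd 1 u) ![t, a, 0, 0]) ^ 2 + ((q t)⁻¹) ^ 2 * (pd 1 (pd 1 u) ![t, a, 0, 0]) ^ 2 -
        lam * q t * (pd 1 u ![t, a, 0, 0]) ^ 2) = 0 := by
    rcases mul_eq_zero.1 hE with h | h
    · exact absurd h (by positivity)
    · exact h
  have cpath : Continuous (fun p : ℝ × ℝ => (![p.1, p.2, 0, 0] : V 4)) :=
    cont4 _ _ _ _ continuous_fst continuous_snd continuous_const continuous_const
  have hz := core hWir hPic lam ψ hψ (fun t a => u ![t, a, 0, 0])
    (fun t a => pd 1 u ![t, a, 0, 0]) (fun t a => pd 0 (pd 1 u) ![t, a, 0, 0])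
    (fun t a => pd 1 (pd 1 u) ![t, a, 0, 0])
    (hvD.continuous.comp cpath) ((hv' 0).continuous.comp cpath) ((hv' 1).continuous.comp cpath)
    (fun a => cdiff0 _ hv.1 a) (fun t => cdiff1 _ hv.1 t)
    (fun t a => hd1 u huD t a 0 0) (fun t a => hd0 _ hvD t a 0 0) (fun t a => hd1 _ hvD t a 0 0)
    (by
      intro t ht a
      have := hinv ![t, a, 0, 0] ((mem_strip t a 0 0).2 ht)
      simpa [i2] using this)
    hE'
  intro x hx
  rw [vec_eq x] at hx ⊢
  rw [mem_strip] at hx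
  rw [hindv _ _ _ _ hx]
  exact hz _ hx _

end Pool.Agent.W695.ST
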